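import Mathlib
import Pool.Agent.Lib.helper21.Tens

set_option autoImplicit false

namespace Pool.Agent.Results.MP_254ca6_gt.Q1

open Filter Topology Pool.Agent.Lib.helper21.Tens

def UCompact (u : Ultrafilter ℕ) (X : Type) [TopologicalSpace X] : Prop :=
  ∀ f : ℕ → X, ∃ x, Tendsto f u (𝓝 x)

def DCompact (u : Ultrafilter ℕ) (X : Type) [TopologicalSpace X] : Prop :=
  ∀ f : ℕ → X, Function.Injective f → DiscreteTopology (Set.range f) → ∃ x, Tendsto f u (𝓝 x)

def LeC (u v : Ultrafilter ℕ) : Prop :=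
  ∀ (X : Type) [TopologicalSpace X] [T35Space X], UCompact v X → UCompact u X

def LeCF (u v : Ultrafilter ℕ) : Prop :=
  ∀ (X : Type) [TopologicalSpace X] [T35Space X], DCompact v X → DCompact u X

def LeRF (u v : Ultrafilter ℕ) : Prop :=
  ∃ f : ℕ → Ultrafilter ℕ, Function.Injective f ∧ DiscreteTopology (Set.range f) ∧
    Tendsto f u (𝓝 v)

lemma tendsto_uf {g : ℕ → Ultrafilter ℕ} {l : Filter ℕ} {w : Ultrafilter ℕ} :
    Tendsto g l (𝓝 w) ↔ ∀ A ∈ w, ∀ᶠ n in l, A ∈ g n := by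
  refine TopologicalSpace.tendsto_nhds_generateFrom_iff.trans ⟨fun h A hA => h _ ⟨A, rfl⟩ hA, ?_⟩
  rintro h _ ⟨A, rfl⟩ hA
  exact h A hA

lemma tendsto_bind (v : Ultrafilter ℕ) (g : ℕ → Ultrafilter ℕ) : Tendsto g v (𝓝 (v.bind g)) :=
  tendsto_uf.2 fun _ hA => Filter.mem_bind'.1 hA

lemma disc_iff {P : Ultrafilter ℕ → Prop} (f : ℕ → Subtype P) (hf : Function.Injective f) :
    DiscreteTopology (Set.range f) ↔ ∀ n, ∃ A, ∀ m, A ∈ (f m).1 ↔ m = n := by
  rw [discreteTopology_subtype_iff']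
  constructor
  · intro h n
    obtain ⟨U, hU, he⟩ := h _ ⟨n, rfl⟩
    obtain ⟨V, hV, rfl⟩ := isOpen_induced_iff.1 hU
    have h1 : f n ∈ Subtype.val ⁻¹' V ∩ Set.range f := he ▸ rfl
    obtain ⟨_, ⟨A, rfl⟩, hA, hs⟩ := ultrafilterBasis_is_basis.exists_subset_of_mem_open h1.1 hV
    refine ⟨A, fun m => ⟨fun hm => hf ?_, fun hm => hm ▸ hA⟩⟩
    have : f m ∈ Subtype.val ⁻¹' V ∩ Set.range f := ⟨hs hm, m, rfl⟩
    rwa [he] at this
  · rintro h _ ⟨n, rfl⟩
    obtain ⟨A, hA⟩ := h n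
    refine ⟨_, (ultrafilter_isOpen_basic A).preimage continuous_subtype_val, ?_⟩
    ext x
    constructor
    · rintro ⟨h1, m, rfl⟩
      exact congrArg f ((hA m).1 h1)
    · rintro rfl
      exact ⟨(hA n).2 rfl, n, rfl⟩

lemma test {P : Ultrafilter ℕ → Prop} (hP : ∀ n, P (pure n)) {u : Ultrafilter ℕ}
    (h : DCompact u (Subtype P)) : P u := by
  have hi : Function.Injective fun n : ℕ => (⟨pure n, hP n⟩ : Subtype P) :=
    fun a b hab => Ultrafilter.pure_injective (congrArg Subtype.val hab)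
  obtain ⟨x, hx⟩ := h _ hi ((disc_iff _ hi).2 fun n => ⟨{n}, fun m => Iff.rfl⟩)
  have h1 := tendsto_uf.1 ((continuous_subtype_val.tendsto x).comp hx)
  have : u = x.1 := Ultrafilter.eq_of_le fun A hA => h1 A hA
  exact this ▸ x.2

lemma cf_le_c {u v : Ultrafilter ℕ} (h : LeCF u v) : LeC u v := by
  intro X _ _ hX f
  refine test (P := fun w => ∃ x, Tendsto f w (𝓝 x))
    (fun n => ⟨f n, tendsto_pure_nhds f n⟩) (h _ fun g _ _ => ?_)
  choose x hx using fun n => (g n).2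
  obtain ⟨y, hy⟩ := hX x
  refine ⟨⟨v.bind fun n => (g n).1, y, ?_⟩, tendsto_subtype_rng.2 (tendsto_bind _ _)⟩
  refine (closed_nhds_basis y).tendsto_right_iff.2 fun s hs => ?_
  refine Filter.mem_bind'.2 ?_
  filter_upwards [hy (interior_mem_nhds.2 hs.1)] with n hn
  exact hx n (mem_interior_iff_mem_nhds.1 hn)

lemma cf_rk {u v : Ultrafilter ℕ} (h : LeCF u v) :
    (∃ n, u = pure n) ∨ ∃ p : ℕ → ℕ, Tendsto p u v := by
  classical
  refine test (P := fun w => (∃ n, w = pure n) ∨ ∃ p : ℕ → ℕ, Tendsto p w v)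
    (fun n => Or.inl ⟨n, rfl⟩) (h _ fun g hg hd => ?_)
  choose A hA using (disc_iff g hg).1 hd
  refine ⟨⟨v.bind fun n => (g n).1, Or.inr ⟨fun k => if h : ∃ n, k ∈ A n then Nat.find h else 0,
    fun S hS => ?_⟩⟩, tendsto_subtype_rng.2 (tendsto_bind _ _)⟩
  refine mem_map.2 (Filter.mem_bind'.2 (mem_map.2 (mem_of_superset hS fun n hn => ?_)))
  have h1 : ∀ᶠ k in ((g n).1 : Filter ℕ), ∀ m ∈ Set.Iio n, k ∉ A m :=
    (eventually_all_finite (Set.finite_Iio n)).2 fun m hm =>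
      Ultrafilter.compl_mem_iff_notMem.2 fun hc => (ne_of_lt hm) ((hA m n).1 hc).symm
  filter_upwards [h1, (hA n n).2 rfl] with k h2 h3
  have h4 : ∃ n, k ∈ A n := ⟨n, h3⟩
  have : Nat.find h4 = n := (Nat.find_eq_iff h4).2 ⟨h3, h2⟩
  simpa [h4, this] using hn

theorem result : (∀ u v, LeCF u v → LeC u v) ∧ ∃ u v, LeRF u v ∧ LeC u v ∧ ¬ LeCF u v := by
  refine ⟨fun _ _ => cf_le_c, ?_⟩
  let u := hyperfilter ℕ
  let e := Nat.pairEquiv
  refine ⟨u, (tens u u).map e, ?_, fun X _ _ hX f => ?_, fun h => ?_⟩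
  · let f : ℕ → Ultrafilter ℕ := fun n => u.map fun m => e (n, m)
    have hf : ∀ n m, {k | (e.symm k).1 = n} ∈ f m ↔ m = n := fun n m => by
      simp only [f, Ultrafilter.mem_map, Set.preimage_setOf_eq, Equiv.symm_apply_apply]
      exact eventually_const (f := (u : Filter ℕ))
    refine ⟨f, fun a b hab => ?_, discreteTopology_subtype_iff'.2 ?_, tendsto_bind _ _ |>.mono_right ?_⟩
    · exact (hf b a).1 (hab ▸ (hf b b).2 rfl)
    · rintro _ ⟨n, rfl⟩
      refine ⟨_, ultrafilter_isOpen_basic {k | (e.symm k).1 = n}, ?_⟩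
      ext x
      constructor
      · rintro ⟨h1, m, rfl⟩
        exact congrArg f ((hf n m).1 h1)
      · rintro rfl
        exact ⟨(hf n n).2 rfl, n, rfl⟩
    · refine le_of_eq (congrArg _ (Ultrafilter.eq_of_le fun A hA => ?_))
      exact Filter.mem_bind'.2 (Filter.mem_bind'.1 hA)
  · obtain ⟨x, hx⟩ := hX fun k => f (e.symm k).1
    refine ⟨x, fun s hs => ?_⟩
    have h1 : ∀ᶠ y in (tens u u : Filter (ℕ × ℕ)), f (e.symm (e y)).1 ∈ s := hx hs
    show ∀ᶠ i in (u : Filter ℕ), f i ∈ s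
    simpa [ev_tens] using h1
  · rcases cf_rk h with ⟨n, hn⟩ | ⟨p, hp⟩
    · have : ({n} : Set ℕ) ∈ u := by rw [hn]; rfl
      exact (Set.finite_singleton n).notMem_hyperfilter this
    · refine not_tens_le Set.finite_Iic u hyperfilter_le_cofinite (fun i => e.symm (p i)) ?_
      refine Tendsto.comp (y := (tens u u).map e) ?_ hp
      intro A hA
      simpa [Set.preimage_preimage] using hA

end Pool.Agent.Results.MP_254ca6_gt.Q1
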